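import Mathlib
import Pool.Agent.R976.MG.Gap2

/-!
# Margulis' injectivity radius conjecture over fields with large abelian subfields

Fix a number field `K` (for instance `ℚ`) and a prime ideal `𝔭` of `K`. Arithmetic groups over
number fields `k` are considered that contain a Galois extension `E` of `K`, such that for fixed `a`
and `b` the `a`-th powers of the elements of the decomposition groups of `E` above `𝔭` have at most
`b` conjugates in the Galois group (for instance `E` abelian over `K`, and `a = b = 1`). Let `e` be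
a bound for the ramification indices of `E` above `𝔭`. Then each `γ ≠ 1` has an eigenvalue `l` under
one of the noncompact embeddings with
`(s n) log |l| ≥ [E : ℚ] exp (- C √(1 + log (n [k : E]))) / (C e s n)`, where `C` depends on `K`,
`𝔭`, `a` and `b` only.

So for `[k : E] = 1`, for instance, the injectivity radius grows at least linearly in `[k : ℚ]` if
`k` is abelian over `ℚ` with conductor prime to a fixed prime number; and the groups over all fields
`k` with a subfield `E` as above with `[E : ℚ] ≥ e exp (c √(1 + log [k : E]))`, so whose degree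
`[k : E]` over `E` may be as large as `exp (c' (log ([E : ℚ] / e)) ^ 2)`, form a uniformly discrete
family. There is no other condition on `k`.

Method. By the transfer principle of the starting files (`Pool.Agent.Y399.MG.gap_transfer`) a lower
bound is needed for the Mahler measures of the algebraic integers `β`, not roots of unity, that
generate a subfield `M` of index at most `s n` of an extension `L` of `k` of degree at most `n`.
As `[L : E] ≤ n [k : E]`, the relative Lehmer bound of the starting files
(`Pool.Agent.Y740.RL.topQ`, here for the map `z ↦ z ^ p`) gives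
`h (β) ≥ exp (- C √(1 + log [L : E])) / (C e [L : E])`, and `log M(β) = [M : ℚ] h(β)`.

`Pool.Agent.H225R3.MargDefs` contains the definitions: `Realization ρ Γ k n S` (a homomorphism `r`
from `Γ` to the `n` by `n` matrices over the ring of integers of the number field `k`, bounded under
all embeddings outside `S`, such that for `σ` in `S` the eigenvalues of `σ (r γ)` are eigenvalues of
`ρ γ`, and such that only `1` is mapped to a unipotent matrix) and `UniformlyDiscrete` (there is an
identity neighbourhood `U` such that `g U g⁻¹` meets every group of the family in the identity only).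
-/

set_option autoImplicit false

namespace Pool.Agent.Results.MP_162bbe_gt.LargeAbelianSubfields

open NumberField Module Pool.Agent.H225R3.Marg
open scoped Pointwise

universe u

/-- There is no element of finite order other than the identity. -/
def TorsionFree {G : Type*} [Group G] (Γ : Subgroup G) : Prop :=
  ∀ γ ∈ Γ, ∀ N : ℕ, 0 < N → γ ^ N = 1 → γ = 1

/-- The `a`-th powers of the elements of the decomposition groups of the primes of `E` above `𝔭`
have at most `b` conjugates in the Galois group of `E` over `K`. -/
def FewConjugates {K : Type} [Field K] [NumberField K] (𝔭 : Ideal (𝓞 K)) (E : Type) [Field E]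
    [NumberField E] [Algebra K E] (a b : ℕ) : Prop :=
  ∀ 𝔓 : Ideal (𝓞 E), 𝔓.IsMaximal → 𝔓.LiesOver 𝔭 → ∀ σ : Gal(E/K), σ • 𝔓 = 𝔓 →
    (Set.range fun g : Gal(E/K) => g * σ ^ a * g⁻¹).ncard ≤ b

/-- The ramification indices over `K` of the primes of `E` above `𝔭` are at most `e`. -/
def RamificationLe {K : Type} [Field K] [NumberField K] (𝔭 : Ideal (𝓞 K)) (E : Type) [Field E]
    [NumberField E] [Algebra K E] (e : ℕ) : Prop :=
  ∀ 𝔓 : Ideal (𝓞 E), 𝔓.IsMaximal → 𝔓.LiesOver 𝔭 → 𝔓.ramificationIdx (𝓞 K) ≤ e

/-- The torsion-free subgroups `Γ` of `G` that have a realization by matrices of size `n`, with at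
most `s` noncompact embeddings, over a number field `k` that contains a Galois extension `E` of `K`
with `FewConjugates 𝔭 E a b` and with ramification indices above `𝔭` at most `e`, such that
`[E : ℚ] ≥ e exp (c √(1 + log [k : E]))`. -/
def Family {K : Type} [Field K] [NumberField K] (𝔭 : Ideal (𝓞 K)) (a b : ℕ) (c : ℝ) (s n : ℕ)
    {G : Type*} [Group G] {M : ℕ} (ρ : G →* Matrix (Fin M) (Fin M) ℂ) : Set (Subgroup G) :=
  {Γ | TorsionFree Γ ∧
    ∃ (k : Type) (_ : Field k) (_ : NumberField k) (S : Finset (k →+* ℂ))
      (_ : Realization ρ Γ k n S) (E : Type) (_ : Field E) (_ : NumberField E) (_ : Algebra K E)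
      (_ : Algebra E k) (e : ℕ), IsGalois K E ∧ S.card ≤ s ∧ FewConjugates 𝔭 E a b ∧
        1 ≤ e ∧ RamificationLe 𝔭 E e ∧
        e * Real.exp (c * Real.sqrt (1 + Real.log (finrank E k))) ≤ finrank ℚ E}

/-- Every `γ ≠ 1` in `Γ` has an eigenvalue `l` under one of the noncompact embeddings, which is also
an eigenvalue of `ρ γ`, with `|l| > 1` and `N log |l| ≥ μ`. -/
def EigenvalueBound {G : Type*} [Group G] {M : ℕ} {ρ : G →* Matrix (Fin M) (Fin M) ℂ}
    {Γ : Subgroup G} {k : Type} [Field k] [NumberField k] {n : ℕ} {S : Finset (k →+* ℂ)}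
    (R : Realization ρ Γ k n S) (N : ℕ) (μ : ℝ) : Prop :=
  ∀ γ : Γ, γ ≠ 1 → ∃ σ ∈ S, ∃ l : ℂ, IsEig (conjMat σ (R.r γ)) l ∧ IsEig (ρ γ) l ∧
    1 < ‖l‖ ∧ μ ≤ N * Real.log ‖l‖

/-- **Margulis' conjecture over fields with large abelian subfields.** Let `K` be a number field and
`𝔭` a maximal ideal of its ring of integers which contains the prime number `p`. Let `a ≥ 1` and
`b` be given. There is `C > 0` such that the following holds.

1. Let `Γ` be a torsion-free group with a realization `R` of size `n` over a number field `k`, with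
   at most `s` noncompact embeddings, and let `E` be a Galois extension of `K` contained in `k` with
   `FewConjugates 𝔭 E a b` and with ramification indices above `𝔭` at most `e`. Then each `γ ≠ 1` in
   `Γ` has an eigenvalue `l` under one of the noncompact embeddings, which is also an eigenvalue of
   `ρ γ`, with `(s n) log |l| ≥ [E : ℚ] exp (- C √(1 + log (n [k : E]))) / (C e s n)`.
2. For all `s`, `n` and every continuous finite dimensional complex representation `ρ` of a
   topological group the family `Family 𝔭 a b C s n ρ` is uniformly discrete.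

Moreover `FewConjugates 𝔭 E 1 1` holds for all abelian extensions `E` of `K`. -/
theorem result (K : Type) [Field K] [NumberField K] (p : ℕ) (hp : p.Prime) (𝔭 : Ideal (𝓞 K))
    (h𝔭 : 𝔭.IsMaximal) (hp𝔭 : (p : 𝓞 K) ∈ 𝔭) :
    (∀ a b : ℕ, 1 ≤ a → ∃ C : ℝ, 0 < C ∧
      (∀ (G : Type u) [Group G] (M : ℕ) (ρ : G →* Matrix (Fin M) (Fin M) ℂ) (Γ : Subgroup G)
        (E k : Type) [Field E] [NumberField E] [Field k] [NumberField k] [Algebra K E]
        [Algebra E k] [IsGalois K E] (n s e : ℕ) (S : Finset (k →+* ℂ))
        (R : Realization ρ Γ k n S), FewConjugates 𝔭 E a b → 1 ≤ e → RamificationLe 𝔭 E e →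
        TorsionFree Γ → S.card ≤ s →
        EigenvalueBound R (s * n) (finrank ℚ E *
          Real.exp (-(C * Real.sqrt (1 + Real.log (n * finrank E k : ℕ)))) /
            (C * e * (s * n : ℕ)))) ∧
      (∀ (s n : ℕ) (G : Type u) [Group G] [TopologicalSpace G] (M : ℕ)
        (ρ : G →* Matrix (Fin M) (Fin M) ℂ), Continuous ρ →
        UniformlyDiscrete (Family 𝔭 a b C s n ρ))) ∧
    (∀ (E : Type) [Field E] [NumberField E] [Algebra K E],
      (∀ x y : Gal(E/K), x * y = y * x) → FewConjugates 𝔭 E 1 1) := by
  have aux : ∀ {G : Type u} [Group G] {M : ℕ} {ρ : G →* Matrix (Fin M) (Fin M) ℂ}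
      {Γ : Subgroup G} {k : Type} [Field k] [NumberField k] {n : ℕ} {S : Finset (k →+* ℂ)}
      (R : Realization ρ Γ k n S) (_ : TorsionFree Γ)
      (γ : Γ), γ ≠ 1 → ∀ N : ℕ, 0 < N → ¬ IsNilpotent (R.r γ ^ N - 1) := by
    intro G _ M ρ Γ k _ _ n S R htf γ hγ N hN h0
    rw [← map_pow] at h0
    have h1 := R.unipotent _ h0
    have h2 : (γ : G) ^ N = 1 := congrArg Subtype.val h1
    exact hγ (Subtype.ext (htf _ γ.2 N hN h2))
  refine ⟨?_, ?_⟩
  · intro a b ha
    obtain ⟨C, hC, h⟩ := Pool.Agent.R976.MG.near_mahler_ram K hp 𝔭 h𝔭 hp𝔭 a b ha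
    refine ⟨C, hC, ?_, ?_⟩
    · intro G _ M ρ Γ E k _ _ _ _ _ _ _ n s e S R hfew he hram htf hs γ hγ
      obtain ⟨σ, hσ, l, hl, hl1, hlow⟩ := Pool.Agent.Y399.MG.gap_transfer k n s S (R.r γ) hs
        (Pool.Agent.R976.MG.lb2 C n (finrank E k) (s * n) e (finrank ℚ E))
        (fun L _ _ _ M' β h1 h2 h3 h4 h5 => h E k hfew e he hram n (s * n) L M' β h1 h2 h3 h4 h5)
        ((Group.isUnit γ).map R.r) (fun σ hσ l hl => R.comp' _ σ hσ l hl) (aux R htf γ hγ)
      have hl' : IsEig (conjMat σ (R.r γ)) l := hl
      exact ⟨σ, hσ, l, hl', R.eig σ hσ γ l hl', hl1, hlow⟩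
    · intro s n G _ _ M ρ hρ
      obtain ⟨ε, hε, hε2⟩ := Pool.Agent.Y399.MG.exists_eps (s * n)
        (Real.exp (-(C * Real.sqrt (Real.log n))) / (C * (s * n + 1 : ℕ)))
        (by positivity)
      refine ⟨_, nhd ρ hρ ε hε, ?_⟩
      rintro Γ ⟨htf, k, _, _, S, R, E, _, _, _, _, e, hgal, hs, hfew, he, hram, hbig⟩ g v hv hΓ
      refine final_step' R htf ε hε g v hv hΓ fun hnil => ?_
      have hunit : IsUnit (R.r ⟨g * v * g⁻¹, hΓ⟩) :=
        (Group.isUnit (⟨g * v * g⁻¹, hΓ⟩ : Γ)).map R.r
      obtain ⟨σ, hσ, l, hl, hl1, hlow⟩ := Pool.Agent.Y399.MG.gap_transfer k n s S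
        (R.r ⟨g * v * g⁻¹, hΓ⟩) hs
        (Real.exp (-(C * Real.sqrt (Real.log n))) / (C * (s * n + 1 : ℕ)))
        (fun L _ _ _ M' β h1 h2 h3 h4 h5 => by
          refine le_trans ?_ (h E k hfew e he hram n (s * n) L M' β h1 h2 h3 h4 h5)
          unfold Pool.Agent.R976.MG.lb2
          have hsn : 0 < s * n := by
            rcases Nat.eq_zero_or_pos (s * n) with h0 | h0
            · rw [h0] at h2
              have : 0 < finrank M' L := finrank_pos
              omega
            · exact h0
          have hn0 : n ≠ 0 := by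
            rintro rfl
            simp at hsn
          have hD0 : finrank E k ≠ 0 := (finrank_pos (R := E) (M := k)).ne'
          have hsn' : (0 : ℝ) < ((s * n : ℕ) : ℝ) := by exact_mod_cast hsn
          have heR : (0 : ℝ) < e := by exact_mod_cast he
          have hsq : Real.sqrt (1 + Real.log (n * finrank E k : ℕ)) ≤
              Real.sqrt (1 + Real.log (finrank E k)) + Real.sqrt (Real.log n) := by
            rw [Nat.cast_mul, Real.log_mul (by exact_mod_cast hn0) (by exact_mod_cast hD0)]
            have e1 := Real.log_natCast_nonneg n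
            have e2 := Real.log_natCast_nonneg (finrank E k)
            rw [Real.sqrt_le_left (by positivity)]
            have e3 := Real.sq_sqrt e1
            have e4 := Real.sq_sqrt (by linarith : (0 : ℝ) ≤ 1 + Real.log (finrank E k))
            have e5 : 0 ≤ Real.sqrt (1 + Real.log (finrank E k)) * Real.sqrt (Real.log n) := by
              positivity
            nlinarith
          have h7 : Real.exp (-(C * Real.sqrt (Real.log n))) ≤
              Real.exp (C * Real.sqrt (1 + Real.log (finrank E k))) *
                Real.exp (-(C * Real.sqrt (1 + Real.log (n * finrank E k : ℕ)))) := by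
            rw [← Real.exp_add]
            apply Real.exp_le_exp.2
            nlinarith
          have h8 : C * ((s * n : ℕ) : ℝ) ≤ C * ((s * n + 1 : ℕ) : ℝ) := by
            apply mul_le_mul_of_nonneg_left _ hC.le
            push_cast
            linarith
          calc Real.exp (-(C * Real.sqrt (Real.log n))) / (C * (s * n + 1 : ℕ))
              ≤ Real.exp (-(C * Real.sqrt (Real.log n))) / (C * (s * n : ℕ)) :=
                div_le_div_of_nonneg_left (Real.exp_pos _).le (by positivity) h8
            _ ≤ (Real.exp (C * Real.sqrt (1 + Real.log (finrank E k))) *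
                Real.exp (-(C * Real.sqrt (1 + Real.log (n * finrank E k : ℕ))))) /
                (C * (s * n : ℕ)) := div_le_div_of_nonneg_right h7 (by positivity)
            _ = (e * Real.exp (C * Real.sqrt (1 + Real.log (finrank E k)))) *
                Real.exp (-(C * Real.sqrt (1 + Real.log (n * finrank E k : ℕ)))) /
                (C * e * (s * n : ℕ)) := by
                field_simp
            _ ≤ _ := by
                apply div_le_div_of_nonneg_right _ (by positivity)
                exact mul_le_mul_of_nonneg_right hbig (Real.exp_pos _).le)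
        hunit (fun σ hσ l hl => R.comp' _ σ hσ l hl) hnil
      exact ⟨σ, hσ, l, hl, hε2 l hlow hl1⟩
  · intro E _ _ _ hcomm 𝔓 _ _ σ _
    have h1 : (Set.range fun g : Gal(E/K) => g * σ ^ 1 * g⁻¹) ⊆ {σ} := by
      rintro _ ⟨g, rfl⟩
      change g * σ ^ 1 * g⁻¹ = σ
      rw [pow_one, hcomm g σ]
      group
    calc (Set.range fun g : Gal(E/K) => g * σ ^ 1 * g⁻¹).ncard ≤ ({σ} : Set Gal(E/K)).ncard :=
          Set.ncard_le_ncard h1 (Set.finite_singleton σ)
      _ = 1 := Set.ncard_singleton σ

end Pool.Agent.Results.MP_162bbe_gt.LargeAbelianSubfields
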