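import Mathlib
import Pool.Agent.R976.MG.Split2

/-!
# Margulis' injectivity radius conjecture over fields with many primes of moderate norm

Let `p` be a prime number, `q = p ^ F` and `0 < θ`. Number fields `k` of degree `m` are considered
with a set `T` of prime ideals above `p` with norms `p ^ f`, `f ∣ F`, whose residue degrees have a
sum at least `θ m`; in particular `k` has at least `θ m / F` prime ideals of norm at most `q`. For
all torsion-free groups realized by integral matrices of size `n` over `k`, with at most `s`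
noncompact embeddings, each `γ ≠ 1` has an eigenvalue `l` under one of the noncompact embeddings with
`log |l| ≥ m log 2 / (s n q ^ n 4 ^ (n ^ 2 / θ))`.

So for bounded `q` the injectivity radius grows at least linearly in the degree of the field, and
the groups over all the fields of this kind with `q ^ n ≤ c m`, for arbitrary primes `p` and
exponents `F`, form a uniformly discrete family: the norms of the primes may be as large as the
power `m ^ (1 / n)` of the degree.

Proof. Let `x` be an eigenvalue of `r γ` which is not a root of unity, `L = k (x)`, and choose a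
prime `Q` of `L` above each prime in `T`. By the pigeonhole principle a subset of `T` with the sum
of the residue degrees at least `θ m / n` has primes `Q` with the same relative residue degree `i`.
Then `x ^ V (x ^ N - 1)` is divisible by `Q ^ V` for these `Q`, where `N = (q ^ i - 1) p ^ (V - 1)`.
So the norm of this number is large if `V` is of the order of magnitude of `n ^ 2 / (θ log p)`; on
the other hand it is at most `2 ^ [L : ℚ] |l| ^ (s n (N + V))`, where `l` is the largest conjugate.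

`Pool.Agent.H225R3.MargDefs` contains the definitions: `Realization ρ Γ k n S` (a homomorphism `r`
from `Γ` to the `n` by `n` matrices over the ring of integers of the number field `k`, bounded under
all embeddings outside `S`, such that for `σ` in `S` the eigenvalues of `σ (r γ)` are eigenvalues of
`ρ γ`, and such that only `1` is mapped to a unipotent matrix) and `UniformlyDiscrete` (there is an
identity neighbourhood `U` such that `g U g⁻¹` meets every group of the family in the identity only).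
-/

set_option autoImplicit false

namespace Pool.Agent.Results.MP_162bbe_gt.SplitPrimes

open NumberField Module Pool.Agent.H225R3.Marg

universe u

/-- There is no element of finite order other than the identity. -/
def TorsionFree {G : Type*} [Group G] (Γ : Subgroup G) : Prop :=
  ∀ γ ∈ Γ, ∀ N : ℕ, 0 < N → γ ^ N = 1 → γ = 1

/-- The number field `k` of degree `m` has a set `T` of maximal ideals containing `p`, with norms
`p ^ f`, `f ∣ F`, and with the sum of the logarithms of the norms at least `θ m log p`. (So the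
sum of the residue degrees `f` is at least `θ m`.) -/
def ManyPrimes (p F : ℕ) (θ : ℝ) (k : Type) [Field k] [NumberField k] : Prop :=
  ∃ T : Finset (Ideal (𝓞 k)),
    (∀ P ∈ T, P.IsMaximal ∧ (p : 𝓞 k) ∈ P ∧ ∃ f, f ∣ F ∧ Ideal.absNorm P = p ^ f) ∧
    θ * finrank ℚ k * Real.log p ≤ ∑ P ∈ T, Real.log (Ideal.absNorm P)

/-- The torsion-free subgroups `Γ` of `G` that have a realization by matrices of size `n`, with at
most `s` noncompact embeddings, over a number field `k`, of any degree `m`, such that for some prime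
number `p` and some `F ≥ 1` with `(p ^ F) ^ n ≤ c m` the field has `ManyPrimes p F θ k`. -/
def Family (θ c : ℝ) (s n : ℕ) {G : Type*} [Group G] {M : ℕ}
    (ρ : G →* Matrix (Fin M) (Fin M) ℂ) : Set (Subgroup G) :=
  {Γ | TorsionFree Γ ∧
    ∃ (k : Type) (_ : Field k) (_ : NumberField k) (S : Finset (k →+* ℂ))
      (_ : Realization ρ Γ k n S) (p F : ℕ), S.card ≤ s ∧ p.Prime ∧ 1 ≤ F ∧ ManyPrimes p F θ k ∧
        ((p : ℝ) ^ F) ^ n ≤ c * finrank ℚ k}

/-- Every `γ ≠ 1` in `Γ` has an eigenvalue `l` under one of the noncompact embeddings, which is also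
an eigenvalue of `ρ γ`, with `|l| > 1` and `log |l| ≥ μ`. -/
def EigenvalueBound {G : Type*} [Group G] {M : ℕ} {ρ : G →* Matrix (Fin M) (Fin M) ℂ}
    {Γ : Subgroup G} {k : Type} [Field k] [NumberField k] {n : ℕ} {S : Finset (k →+* ℂ)}
    (R : Realization ρ Γ k n S) (μ : ℝ) : Prop :=
  ∀ γ : Γ, γ ≠ 1 → ∃ σ ∈ S, ∃ l : ℂ, IsEig (conjMat σ (R.r γ)) l ∧ IsEig (ρ γ) l ∧
    1 < ‖l‖ ∧ μ ≤ Real.log ‖l‖

/-- **Margulis' conjecture over fields with many primes of moderate norm.**

1. Let `p` be a prime number, `F ≥ 1` and `θ > 0`. Let `Γ` be a torsion-free group with a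
   realization `R` of size `n` over a number field `k` of degree `m` with `ManyPrimes p F θ k`, with
   at most `s` noncompact embeddings. Then each `γ ≠ 1` in `Γ` has an eigenvalue `l` under one of the
   noncompact embeddings, which is also an eigenvalue of `ρ γ`, with
   `log |l| ≥ m log 2 / (s n (p ^ F) ^ n 4 ^ (n ^ 2 / θ))`.
2. For all `θ > 0`, `c`, `s`, `n` and every continuous finite dimensional complex representation `ρ`
   of a topological group the family `Family θ c s n ρ` is uniformly discrete. -/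
theorem result :
    (∀ (p F : ℕ) (θ : ℝ), p.Prime → 1 ≤ F → 0 < θ →
      ∀ (G : Type u) [Group G] (M : ℕ) (ρ : G →* Matrix (Fin M) (Fin M) ℂ) (Γ : Subgroup G)
        (k : Type) [Field k] [NumberField k] (n s : ℕ) (S : Finset (k →+* ℂ))
        (R : Realization ρ Γ k n S), ManyPrimes p F θ k → TorsionFree Γ → S.card ≤ s →
        EigenvalueBound R (finrank ℚ k * Real.log 2 /
          (s * n * ((p : ℝ) ^ F) ^ n * (4 : ℝ) ^ ((n : ℝ) ^ 2 / θ)))) ∧
    (∀ (θ c : ℝ) (s n : ℕ), 0 < θ →
      ∀ (G : Type u) [Group G] [TopologicalSpace G] (M : ℕ)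
        (ρ : G →* Matrix (Fin M) (Fin M) ℂ), Continuous ρ →
        UniformlyDiscrete (Family θ c s n ρ)) := by
  have aux : ∀ {G : Type u} [Group G] {M : ℕ} {ρ : G →* Matrix (Fin M) (Fin M) ℂ}
      {Γ : Subgroup G} {k : Type} [Field k] [NumberField k] {n : ℕ} {S : Finset (k →+* ℂ)}
      (R : Realization ρ Γ k n S) (_ : TorsionFree Γ)
      (γ : Γ), γ ≠ 1 → ∀ N : ℕ, 0 < N → ¬ IsNilpotent (R.r γ ^ N - 1) := by
    intro G _ M ρ Γ k _ _ n S R htf γ hγ N hN h0
    rw [← map_pow] at h0
    have h1 := R.unipotent _ h0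
    have h2 : (γ : G) ^ N = 1 := congrArg Subtype.val h1
    exact hγ (Subtype.ext (htf _ γ.2 N hN h2))
  have key : ∀ (p F : ℕ) (θ : ℝ), p.Prime → 1 ≤ F → 0 < θ →
      ∀ (k : Type) [Field k] [NumberField k] (n s : ℕ) (S : Finset (k →+* ℂ))
        (A : Matrix (Fin n) (Fin n) (𝓞 k)), ManyPrimes p F θ k → S.card ≤ s → IsUnit A →
        (∀ σ : k →+* ℂ, σ ∉ S → ∀ l : ℂ, IsEig (conjMat σ A) l → ‖l‖ ≤ 1) →
        (∀ N : ℕ, 0 < N → ¬ IsNilpotent (A ^ N - 1)) →
        ∃ σ ∈ S, ∃ l : ℂ, IsEig (conjMat σ A) l ∧ 1 < ‖l‖ ∧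
          finrank ℚ k * Real.log 2 ≤
            (s * n : ℕ) * ((p : ℝ) ^ (F * n) * (4 : ℝ) ^ ((n : ℝ) ^ 2 / θ)) * Real.log ‖l‖ := by
    intro p F θ hp hF hθ k _ _ n s S A hk hs hA hout hnil
    obtain ⟨T, hT, hbig⟩ := hk
    refine Pool.Agent.Y399.MG.gap_of k n S A (fun R => finrank ℚ k * Real.log 2 ≤
      (s * n : ℕ) * ((p : ℝ) ^ (F * n) * (4 : ℝ) ^ ((n : ℝ) ^ 2 / θ)) * Real.log R) ?_ hA hout hnil
    intro L _ _ _ x R hx0 hxi hroot hR hout' hin hdeg
    have hx : (((⟨x, hxi⟩ : 𝓞 L) : 𝓞 L) : L) = x := rfl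
    refine Pool.Agent.R976.MG.split_bound (L := L) S (⟨x, hxi⟩ : 𝓞 L) ?_ ?_ R hR hout' hin n s p F
      hs hdeg hp hF θ hθ T hT hbig
    · intro h
      apply hx0
      rw [← hx, h]
      rfl
    · intro m hm h
      apply hroot m hm
      have h1 := congrArg (algebraMap (𝓞 L) L) h
      rw [map_pow, map_one] at h1
      exact h1
  refine ⟨?_, ?_⟩
  · intro p F θ hp hF hθ G _ M ρ Γ k _ _ n s S R hk htf hs γ hγ
    obtain ⟨σ, hσ, l, hl, hl1, hlow⟩ := key p F θ hp hF hθ k n s S (R.r γ) hk hs
      ((Group.isUnit γ).map R.r) (fun σ hσ l hl => R.comp' _ σ hσ l hl) (aux R htf γ hγ)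
    refine ⟨σ, hσ, l, hl, R.eig σ hσ γ l hl, hl1, ?_⟩
    have hlR : 0 < Real.log ‖l‖ := Real.log_pos hl1
    have hm : (0 : ℝ) < finrank ℚ k := by
      exact_mod_cast (finrank_pos : 0 < finrank ℚ k)
    have hl2 : 0 < Real.log 2 := Real.log_pos (by norm_num)
    have e1 : (s * n * ((p : ℝ) ^ F) ^ n * (4 : ℝ) ^ ((n : ℝ) ^ 2 / θ)) =
        (s * n : ℕ) * ((p : ℝ) ^ (F * n) * (4 : ℝ) ^ ((n : ℝ) ^ 2 / θ)) := by
      rw [pow_mul]
      push_cast
      ring
    rw [e1]
    set X := ((s * n : ℕ) : ℝ) * ((p : ℝ) ^ (F * n) * (4 : ℝ) ^ ((n : ℝ) ^ 2 / θ)) with hX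
    have hX0 : 0 < X := by
      by_contra h
      push Not at h
      have h1 : 0 < (finrank ℚ k : ℝ) * Real.log 2 := by positivity
      have h2 : X * Real.log ‖l‖ ≤ 0 := mul_nonpos_of_nonpos_of_nonneg h hlR.le
      linarith
    rw [div_le_iff₀ hX0]
    linarith
  · intro θ c s n hθ G _ _ M ρ hρ
    set Y : ℝ := ((s * n : ℕ) + 1 : ℝ) * ((|c| + 1) * (4 : ℝ) ^ ((n : ℝ) ^ 2 / θ)) with hY
    have hY0 : 0 < Y := by positivity
    have hl2 : 0 < Real.log 2 := Real.log_pos (by norm_num)
    obtain ⟨ε, hε, hε2⟩ := Pool.Agent.Y399.MG.exists_eps 1 (Real.log 2 / Y) (by positivity)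
    refine ⟨_, nhd ρ hρ ε hε, ?_⟩
    rintro Γ ⟨htf, k, _, _, S, R, p, F, hs, hp, hF, hk, hc⟩ g v hv hΓ
    refine final_step' R htf ε hε g v hv hΓ fun hnil => ?_
    have hunit : IsUnit (R.r ⟨g * v * g⁻¹, hΓ⟩) :=
      (Group.isUnit (⟨g * v * g⁻¹, hΓ⟩ : Γ)).map R.r
    obtain ⟨σ, hσ, l, hl, hl1, hlow⟩ := key p F θ hp hF hθ k n s S (R.r ⟨g * v * g⁻¹, hΓ⟩) hk hs
      hunit (fun σ hσ l hl => R.comp' _ σ hσ l hl) hnil
    refine ⟨σ, hσ, l, hl, hε2 l ?_ hl1⟩
    have hlR : 0 < Real.log ‖l‖ := Real.log_pos hl1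
    have hm : (0 : ℝ) < finrank ℚ k := by
      exact_mod_cast (finrank_pos : 0 < finrank ℚ k)
    have hc' : (p : ℝ) ^ (F * n) ≤ (|c| + 1) * finrank ℚ k := by
      rw [pow_mul]
      refine hc.trans ?_
      apply mul_le_mul_of_nonneg_right _ hm.le
      have := le_abs_self c
      linarith
    rw [div_le_iff₀ hY0]
    have h1 : (finrank ℚ k : ℝ) * Real.log 2 ≤ finrank ℚ k * (((1 : ℕ) : ℝ) * Real.log ‖l‖ * Y) := by
      refine hlow.trans ?_
      calc ((s * n : ℕ) : ℝ) * ((p : ℝ) ^ (F * n) * (4 : ℝ) ^ ((n : ℝ) ^ 2 / θ)) * Real.log ‖l‖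
          ≤ ((s * n : ℕ) + 1 : ℝ) * (((|c| + 1) * finrank ℚ k) * (4 : ℝ) ^ ((n : ℝ) ^ 2 / θ)) *
            Real.log ‖l‖ := by
            apply mul_le_mul_of_nonneg_right _ hlR.le
            apply mul_le_mul _ _ (by positivity) (by positivity)
            · linarith
            · exact mul_le_mul_of_nonneg_right hc' (by positivity)
        _ = _ := by
            rw [hY]
            push_cast
            ring
    exact le_of_mul_le_mul_left h1 hm

end Pool.Agent.Results.MP_162bbe_gt.SplitPrimes
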